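import Pool.Agent.H.MP_9ce036_an.C

open Set Metric Filter Topology Complex
open scoped ComplexConjugate ContDiff

namespace Pool.Agent.Results.MP_68919f_an.Cross

open H.MP_b3426d_an H.MP_4c8440_an H.MP_9ce036_an

def L {n : ℕ} (D : Set (EuclideanSpace ℂ (Fin n))) (z w : EuclideanSpace ℂ (Fin n)) : Set ℝ :=
  {t | ∃ α : ℂ, ‖α‖ < 1 ∧ t = ‖α‖ ∧ ∃ φ : ℂ → EuclideanSpace ℂ (Fin n),
    DifferentiableOn ℂ φ (ball 0 1) ∧ MapsTo φ (ball 0 1) D ∧ φ 0 = z ∧ φ α = w}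

def Psc {n : ℕ} (D : Set (EuclideanSpace ℂ (Fin n))) : Prop :=
  ∃ u : EuclideanSpace ℂ (Fin n) → ℝ, ContinuousOn u D ∧ (∀ c, IsCompact {z ∈ D | u z ≤ c}) ∧
    ∀ a b : EuclideanSpace ℂ (Fin n), (∀ ζ : ℂ, ‖ζ‖ ≤ 1 → a + ζ • b ∈ D) →
      u a ≤ Real.circleAverage (fun ζ => u (a + ζ • b)) 0 1

noncomputable def r (p : EuclideanSpace ℂ (Fin 3)) : ℝ :=
  ‖p 2‖ ^ 2 + ‖p 0 * p 1‖ ^ 2 + g (‖p 0‖ ^ 2 + ‖p 1‖ ^ 2 - 1) - 1

lemma rc : ContDiff ℝ ∞ r := by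
  have c (i : Fin 3) : ContDiff ℝ ∞ fun p : EuclideanSpace ℂ (Fin 3) => p i :=
    (EuclideanSpace.proj (𝕜 := ℂ) i |>.restrictScalars ℝ).contDiff
  exact ((((c 2).norm_sq ℂ).add (((c 0).mul (c 1)).norm_sq ℂ)).add
    (gc.comp ((((c 0).norm_sq ℂ).add ((c 1).norm_sq ℂ)).sub contDiff_const))).sub contDiff_const

lemma rb {p : EuclideanSpace ℂ (Fin 3)} (h : r p < 0) :
    ‖p 2‖ ^ 2 + ‖p 0 * p 1‖ ^ 2 < 1 ∧ ‖p 0‖ ^ 2 + ‖p 1‖ ^ 2 < 3 := by
  have := gn (‖p 0‖ ^ 2 + ‖p 1‖ ^ 2 - 1)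
  rw [r] at h
  constructor <;> nlinarith [sq_nonneg ‖p 2‖, sq_nonneg ‖p 0 * p 1‖]

lemma bd : Bornology.IsBounded {p | r p < 0} := isBounded_iff_forall_norm_le.2 ⟨2, fun p hp => by
  refine (sq_le_sq₀ (norm_nonneg _) (by positivity)).1 ?_
  rw [EuclideanSpace.norm_sq_eq, Fin.sum_univ_three]
  nlinarith [rb hp, sq_nonneg ‖p 0 * p 1‖]⟩

lemma rs (t : ℝ) (p : EuclideanSpace ℂ (Fin 3)) : r (t • p) =
    t ^ 2 * ‖p 2‖ ^ 2 + t ^ 4 * ‖p 0 * p 1‖ ^ 2 + g (t ^ 2 * (‖p 0‖ ^ 2 + ‖p 1‖ ^ 2) - 1) - 1 := by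
  simp only [r, PiLp.smul_apply, norm_mul, norm_smul, mul_pow, Real.norm_eq_abs, sq_abs]
  ring_nf

lemma cn : IsConnected {p | r p < 0} := by
  refine (StarConvex.isPathConnected (a := 0) (fun x hx a b a0 b0 e => ?_) (by simp [r, (gz _).1])).isConnected
  refine lt_of_le_of_lt ?_ (mem_ofPred_eq ▸ hx)
  have b1 : b ≤ 1 := by linarith
  have := pow_le_one₀ b0 b1 (n := 2)
  have := pow_le_one₀ b0 b1 (n := 4)
  rw [smul_zero, zero_add, rs, r]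
  refine sub_le_sub_right (add_le_add (add_le_add ?_ ?_) (gmono (sub_le_sub_right ?_ _))) _ <;>
    exact mul_le_of_le_one_left (by positivity) ‹_›

lemma gr {p : EuclideanSpace ℂ (Fin 3)} (h : r p = 0) : fderiv ℝ r p ≠ 0 := fun k => by
  have d := (rc.differentiable (by simp) p).hasFDerivAt.comp_hasDerivAt_of_eq 1
    ((hasDerivAt_id (1 : ℝ)).smul_const p) (by simp)
  have := (((((hasDerivAt_pow 2 (1 : ℝ)).mul_const (‖p 2‖ ^ 2)).add
    ((hasDerivAt_pow 4 (1 : ℝ)).mul_const (‖p 0 * p 1‖ ^ 2))).add ((dg _).comp 1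
      (((hasDerivAt_pow 2 (1 : ℝ)).mul_const (‖p 0‖ ^ 2 + ‖p 1‖ ^ 2)).sub_const 1))).sub_const 1).unique
        (d.congr_of_eventuallyEq (.of_forall fun t => (rs t p).symm))
  rw [r] at h
  simp only [k, one_pow, one_mul, mul_one, zero_apply, Nat.cast_ofNat] at this
  have := sq_nonneg ‖p 2‖
  have := sq_nonneg ‖p 0 * p 1‖
  rcases le_or_gt (‖p 0‖ ^ 2 + ‖p 1‖ ^ 2 - 1) 0 with e | e
  · simp only [gz e] at *; linarith
  · nlinarith [(gp e).2.1]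

lemma ps : Psc {p | r p < 0} := by
  have c : ContinuousOn (fun p => -(r p)⁻¹) {p | r p < 0} := (rc.continuous.continuousOn.inv₀ fun p hp => hp.ne).neg
  refine ⟨_, c, fun c => ?_, fun a b h => ?_⟩
  · refine isCompact_of_isClosed_isBounded ?_ (bd.subset fun p hp => hp.1)
    convert isClosed_le ((continuous_const (y := c)).mul rc.continuous) (continuous_const (y := -1)) |>.inter
      (isClosed_le rc.continuous (continuous_const (y := 0))) using 2 with p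
    ext p
    refine ⟨fun ⟨a, b⟩ => ⟨?_, show r p ≤ 0 from le_of_lt a⟩, fun ⟨a, b⟩ => ?_⟩
    · have a : r p < 0 := a
      have := mul_inv_cancel₀ a.ne
      show c * r p ≤ -1
      nlinarith
    · have a : c * r p ≤ -1 := a
      have b : r p < 0 := lt_of_le_of_ne b fun e => by norm_num [e] at a
      refine ⟨b, ?_⟩
      rw [neg_inv, inv_le_iff_one_le_mul₀ (neg_pos.2 b)]; linarith
  set G := g1 (‖a 0‖ ^ 2 + ‖a 1‖ ^ 2 - 1)
  set q := fun ζ : ℂ => ((-(r a)⁻¹ : ℝ) : ℂ) + (2 * (r a)⁻¹ ^ 2 : ℝ) * (conj (a 2) * (ζ * b 2) +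
    conj (a 0 * a 1) * ((a 0 + ζ * b 0) * (a 1 + ζ * b 1) - a 0 * a 1) +
      G * (conj (a 0) * (ζ * b 0) + conj (a 1) * (ζ * b 1))) with hq
  have dq : Differentiable ℂ q := by fun_prop
  have iq := (dq.continuous.continuousOn (s := sphere 0 1)).circleIntegrable zero_le_one
  refine le_of_eq_of_le ?_ (Real.circleAverage_mono (f₁ := reCLM ∘ q)
    ((reCLM.continuous.comp dq.continuous).continuousOn.circleIntegrable zero_le_one)
    ((c.comp (by fun_prop) fun ζ k => h ζ (by simpa using k.le)).circleIntegrable zero_le_one) fun ζ k => ?_)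
  · rw [reCLM.circleAverage_comp_comm iq, dq.diffContOnCl.circleAverage]; simp [hq]
  have a0 : r a < 0 := by simpa using h 0 (by simp)
  have x0 : r (a + ζ • b) < 0 := h ζ (by simpa using k.le)
  have t := H.MP_9ce036_an.tan (‖a 0‖ ^ 2 + ‖a 1‖ ^ 2 - 1) (‖a 0 + ζ * b 0‖ ^ 2 + ‖a 1 + ζ * b 1‖ ^ 2 - 1)
  have s := nsq (a 0 * a 1) ((a 0 + ζ * b 0) * (a 1 + ζ * b 1) - a 0 * a 1)
  have : r a + 2 * (conj (a 2) * (ζ * b 2) + conj (a 0 * a 1) * ((a 0 + ζ * b 0) * (a 1 + ζ * b 1) - a 0 * a 1) +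
      G * (conj (a 0) * (ζ * b 0) + conj (a 1) * (ζ * b 1))).re ≤ r (a + ζ • b) := by
    simp only [r, PiLp.add_apply, PiLp.smul_apply, smul_eq_mul, add_re, re_ofReal_mul, add_sub_cancel, nsq] at s t ⊢
    nlinarith [mul_nonneg (gn (‖a 0‖ ^ 2 + ‖a 1‖ ^ 2 - 1)).2.1
      (add_nonneg (sq_nonneg ‖ζ * b 0‖) (sq_nonneg ‖ζ * b 1‖)), sq_nonneg ‖ζ * b 2‖,
      sq_nonneg ‖(a 0 + ζ * b 0) * (a 1 + ζ * b 1) - a 0 * a 1‖]
  show (q ζ).re ≤ -(r (a + ζ • b))⁻¹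
  rw [hq, add_re, re_ofReal_mul, ofReal_re]
  generalize r a = x at *
  generalize r (a + ζ • b) = y at *
  have : -x⁻¹ + x⁻¹ ^ 2 * (y - x) ≤ -y⁻¹ := by
    have : -y⁻¹ - (-x⁻¹ + x⁻¹ ^ 2 * (y - x)) = (x - y) ^ 2 / (x ^ 2 * -y) := by
      have := a0.ne; have := x0.ne; field_simp; ring
    have : 0 ≤ (x - y) ^ 2 / (x ^ 2 * -y) := div_nonneg (sq_nonneg _) (mul_nonneg (sq_nonneg _) (by linarith))
    linarith
  nlinarith [sq_nonneg x⁻¹]

lemma disc {p q s u : ℂ} {t α : ℝ} (a : |α| < 1) (h : ∀ ζ : ℂ, ‖ζ‖ < 1 → ‖p + ζ * q‖ ^ 2 + ‖s + ζ * u‖ ^ 2 ≤ 1 ∧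
    t ^ 2 + ‖(p + ζ * q) * (s + ζ * u)‖ ^ 2 < 1) : |α| ∈ L {p | r p < 0} !₂[p, s, t] !₂[p + α * q, s + α * u, t] :=
  ⟨α, by simpa, by simp, fun ζ => !₂[p + ζ * q, s + ζ * u, t], ((differentiable_piLp 2).2 fun i => by
    fin_cases i <;> simp).differentiableOn, fun ζ k => by
      have := h ζ (by simpa using k)
      simpa [-norm_mul, r, (gz (sub_nonpos.2 this.1)).1] using this.2, by simp, rfl⟩

lemma low {a s : ℝ} (a0 : 0 < a) (a1 : a ≤ 1 / 300)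
    (h : s ∈ L {p | r p < 0} !₂[a, 0, (1 - 54 * a ^ 4 : ℝ)] !₂[0, a, (1 - 54 * a ^ 4 : ℝ)]) : a ≤ s * (36 * a + 4 * s) := by
  obtain ⟨α, α1, rfl, φ, d, m, p0, p1⟩ := h
  have d i : DifferentiableOn ℂ (fun ζ => φ ζ i) (ball 0 1) :=
    (EuclideanSpace.proj (𝕜 := ℂ) i).differentiable.comp_differentiableOn d
  have n := ball_mem_nhds (0 : ℂ) one_pos
  have b := ball_subset_ball (x := (0 : ℂ)) (one_half_lt_one (α := ℝ)).le
  have : a ^ 4 ≤ (1 / 300) ^ 4 := by gcongr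
  have F := norm_deriv_le_div_of_mapsTo_ball (R₂ := 18 * a ^ 2) (((d 0).mul (d 1)).mono b) (fun ζ k => by
    have e := borelCaratheodory_zero (f := fun ζ => φ ζ 2 - (1 - 54 * a ^ 4 : ℝ)) (M := 54 * a ^ 4) (by positivity)
      ((d 2).sub_const _) (fun ζ k => by
        have := (re_le_norm _).trans (abs_le_of_sq_le_sq' (a := ‖φ ζ 2‖)
          (by nlinarith [rb (m k), sq_nonneg ‖φ ζ 0 * φ ζ 1‖]) zero_le_one).2
        simp only [mem_ofPred_eq, sub_re, ofReal_re]; linarith) one_pos (b k) (by simp [p0])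
    have k' := mem_ball_zero_iff.1 k
    have e' : ‖φ ζ 2 - (1 - 54 * a ^ 4 : ℝ)‖ ≤ 108 * a ^ 4 :=
      e.trans ((div_le_iff₀ (by linarith)).2 (by nlinarith [pow_pos a0 4]))
    have := norm_sub_norm_le (((1 - 54 * a ^ 4 : ℝ)) : ℂ) (φ ζ 2)
    rw [norm_sub_rev, norm_real, Real.norm_of_nonneg (by linarith)] at this
    rw [Pi.mul_apply, Pi.mul_apply, p0, mem_closedBall]
    simp only [Matrix.cons_val_one, Matrix.cons_val_zero, mul_zero, dist_zero_right]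
    exact (abs_le_of_sq_le_sq' (by nlinarith [rb (m (b k))]) (by positivity)).2) one_half_pos
  rw [deriv_mul ((d 0).differentiableAt n) ((d 1).differentiableAt n)] at F
  have G ζ (k : ζ ∈ ball (0 : ℂ) 1) := norm_dslope_le_div_of_mapsTo_ball (R₂ := 2) (d 1) (fun ζ k => by
    simpa [p0] using (abs_le_of_sq_le_sq' (a := ‖φ ζ 1‖) (by nlinarith [rb (m k), sq_nonneg ‖φ ζ 0‖]) zero_le_two).2) k
  have H := dist_le_div_mul_dist_of_mapsTo_ball (R₂ := 4) ((differentiableOn_dslope n).2 (d 1)) (fun ζ k =>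
    (dist_le_norm_add_norm _ _).trans (by linarith [G ζ k, G 0 (mem_ball_self one_pos)])) (mem_ball_zero_iff.2 α1)
  have e := congrArg norm (sub_smul_dslope (fun ζ => φ ζ 1) 0 α)
  have := norm_le_norm_add_norm_sub' (dslope (fun ζ => φ ζ 1) 0 α) (dslope (fun ζ => φ ζ 1) 0 0)
  simp [p0, p1, abs_of_pos a0, dist_eq_norm] at F H e this
  rw [← e]
  gcongr
  nlinarith

theorem result : ∃ (D : Set (EuclideanSpace ℂ (Fin 3))) (ρ : EuclideanSpace ℂ (Fin 3) → ℝ),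
    IsOpen D ∧ IsConnected D ∧ Bornology.IsBounded D ∧ Psc D ∧
    ContDiff ℝ ∞ ρ ∧ D = {z | ρ z < 0} ∧ (∀ z ∈ frontier D, fderiv ℝ ρ z ≠ 0) ∧
    ∀ C : ℝ, 1 ≤ C → ∃ x ∈ D, ∃ y ∈ D, ∃ z ∈ D, (L D x y).Nonempty ∧ (L D y z).Nonempty ∧ (L D x z).Nonempty ∧
      C * (sInf (L D x y) + sInf (L D y z)) < sInf (L D x z) := by
  refine ⟨_, r, isOpen_lt rc.continuous continuous_const, cn, bd, ps, rc, rfl,
    fun z h => gr (frontier_lt_subset_eq rc.continuous continuous_const h), fun C C1 => ?_⟩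
  obtain ⟨a, a0, e⟩ : ∃ a > 0, a * (300 * C ^ 2) = 1 := ⟨_, by positivity, inv_mul_cancel₀ (by positivity)⟩
  have a1 : a ≤ 1 / 300 := by nlinarith [mul_pos a0 (zero_lt_one.trans_le C1)]
  have : a ^ 4 ≤ (1 / 300) ^ 4 := by gcongr
  have := pow_pos a0 4
  have t : (1 - 54 * a ^ 4) ^ 2 + 36 * a ^ 4 < 1 := by nlinarith
  have A := disc (p := a) (q := -1 / 2) (s := 0) (u := 0) (t := 1 - 54 * a ^ 4) (α := 2 * a)
    (abs_lt.2 ⟨by linarith, by linarith⟩) fun ζ k => by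
      have := norm_add_le (a : ℂ) (ζ * (-1 / 2))
      simp [abs_of_pos a0, -sq_lt_one_iff_abs_lt_one] at this ⊢
      constructor <;> nlinarith [norm_nonneg (a + ζ * (-1 / 2))]
  have B := disc (p := 0) (q := 0) (s := 0) (u := 1) (t := 1 - 54 * a ^ 4) (α := a)
    (abs_lt.2 ⟨by linarith, by linarith⟩) fun ζ k => by
      simp [-sq_lt_one_iff_abs_lt_one, -sq_le_one_iff_abs_le_one]
      constructor <;> nlinarith [norm_nonneg ζ]
  have D := disc (p := a) (q := -2 * a) (s := 0) (u := 2 * a) (t := 1 - 54 * a ^ 4) (α := 1 / 2)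
    (abs_lt.2 ⟨by linarith, by linarith⟩) fun ζ k => by
      have p : ‖a + ζ * (-2 * a)‖ ≤ 3 * a := (norm_add_le _ _).trans (by simp [abs_of_pos a0]; nlinarith)
      have q : ‖0 + ζ * (2 * a)‖ ≤ 2 * a := by simp [abs_of_pos a0]; nlinarith
      have := pow_le_pow_left₀ (norm_nonneg _) p 2
      have := pow_le_pow_left₀ (norm_nonneg _) q 2
      have := pow_le_pow_left₀ (by positivity) (mul_le_mul p q (norm_nonneg _) (by positivity)) 2
      rw [norm_mul]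
      constructor <;> nlinarith
  rw [show (a : ℂ) + (2 * a : ℝ) * (-1 / 2) = 0 by push_cast; ring, mul_zero, add_zero] at A
  rw [mul_zero, add_zero, zero_add, mul_one] at B
  rw [show (a : ℂ) + (1 / 2 : ℝ) * (-2 * a) = 0 by push_cast; ring,
    show 0 + (1 / 2 : ℝ) * (2 * a : ℂ) = a by push_cast; ring] at D
  have l {x y s} (h : s ∈ L {p | r p < 0} x y) : x ∈ {p | r p < 0} ∧ y ∈ {p | r p < 0} ∧ 0 ≤ s :=
    let ⟨α, k, e, φ, _, m, p, q⟩ := h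
    ⟨p ▸ m (mem_ball_self one_pos), q ▸ m (mem_ball_zero_iff.2 k), e ▸ norm_nonneg α⟩
  refine ⟨_, (l A).1, _, (l B).1, _, (l B).2.1, ⟨_, A⟩, ⟨_, B⟩, ⟨_, D⟩, lt_of_lt_of_le (b := 4 * C * a) ?_
    (le_csInf ⟨_, D⟩ fun s h => not_lt.1 fun k => ?_)⟩
  · have p := csInf_le ⟨0, fun s h => (l h).2.2⟩ A
    have q := csInf_le ⟨0, fun s h => (l h).2.2⟩ B
    rw [abs_of_pos (by positivity)] at p q
    nlinarith [mul_le_mul_of_nonneg_left (add_le_add p q) (zero_le_one.trans C1)]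
  · have := (low a0 a1 h).trans (mul_le_mul k.le (add_le_add_right (mul_le_mul_of_nonneg_left k.le zero_le_four) _)
      (by linarith [(l h).2.2]) (by positivity))
    nlinarith [mul_le_mul_of_nonneg_left (show C ≤ C ^ 2 by nlinarith) (sq_nonneg a)]

end Pool.Agent.Results.MP_68919f_an.Cross
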